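import Pool.Agent.H18.HF.Main

/-!
# Log abundance for families of pairs on compact homogeneous Kähler manifolds

Let `Y → B` be a smooth family of compact homogeneous Kähler manifolds over a complex manifold `B`. By
the theorem of Borel and Remmert its fibres are products of complex tori and flag varieties; let the
flag varieties be quotients of `GL_q`. Then `Y` is the fibre product over `B` of a smooth family `A → B`
of complex tori and of a bundle `Y' → B` of flag varieties with structure group `PGL_q`. Neither family
need be isotrivial, have a section, or be projective.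

Let `m Δ` be an effective divisor on `Y`, arbitrarily singular, such that the pairs `(Y_p, Δ_p)` on the
fibres over the points `p` of a compact set `Z ⊂ B` are log canonical (for instance klt). The proof uses
less: for each `p ∈ Z` there is a point `v` of the torus `A_p` such that the pair on the flag variety
`Y_{p,v}` is log canonical. If `K_{Y/B} + Δ` is nef on the flag varieties, then

(1) `K_{Y/A} + Δ` is semiample over `Z`, and so is its sum with every semiample line bundle on `B`;

(2) if the family of tori has a real polarization, for instance if `Y` is a Kähler manifold, and `B` is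
connected, then `K_{Y/B} + Δ` is semiample over `Z`; if `K_B` is semiample at the points of `Z`, then
`K_Y + Δ` is semiample over `Z`.

For `Z = B` compact this is the log abundance theorem for these pairs.

Idea of the proof. For each point `(v, x)` of `Y_p` the pair `(Y_{p,v'}, Δ_{p,v'})` with a marked point
`x` is semistable for `GL_q` if `v' ∈ A_p` is general, by the Hilbert-Mumford criterion, since it is
log canonical. So some covariant `Φ` of forms does not vanish there. The values of `Φ` along the
translates by the points of order `e` of the tori give sections of a power of `K_{Y/A} + Δ` over the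
`e ^ (2 g)` points of order `e`, and the power sums of these sections are global sections over `B`, one of
which does not vanish at `(v, x)` if `e` is chosen such that `v'` is close to `v + t` for a point `t` of
order `e`. The line bundle `λ` of the relative canonical forms of a family of tori with a real
polarization is semiample by the theory of Eisenstein series in `MP_97d78d_ag.KaehlerTorusFibrations`.
-/

set_option autoImplicit false

universe u v

namespace Pool.Agent.Results.MP_9a2ae6_ag.HomogeneousFibrations

open H18.TF H18.HF Q47.FL
open scoped Manifold ContDiff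

/-- Let `Y → B` be a smooth family of products of complex tori of dimension `g` and flag varieties of
`GL_q` of the type `b` over the complex manifold `B`, let `m Δ` be an effective divisor on `Y` of the
class `d` on the flag varieties such that `K + Δ` is nef on the flag varieties, and let `Z` be a compact
subset of `B` such that for every `p ∈ Z` the pair on the flag variety over some point `v` of the torus
over `p` is log canonical. Then there is `N ≥ 1` such that:

(1) `O_Y(N m (K_{Y/A} + Δ))` is generated by its global sections at all points over `Z`, where `Y → A`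
is the bundle of the flag varieties over the total space of the family of tori;

(2) if `M` is a line bundle on `B` and `M ^ N'` is generated by its global sections at the points of
`Z`, then so is the `N N'`-th power of `O_Y(m (K_{Y/A} + Δ)) ⊗ M`;

(3) if `B` is connected and the family of tori has a real polarization, then there is `N₀ ≥ 1` such
that `O_Y(N N₀ m (K_{Y/B} + Δ))` is generated by its global sections at all points over `Z`, and if
`K_B ^ N'` is generated by its global sections at the points of `Z`, then so is
`O_Y(N N₀ N' m (K_Y + Δ))`. -/
theorem result {n g q : ℕ} {B : Type u} [TopologicalSpace B] [ChartedSpace (Fin n → ℂ) B]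
    [IsManifold 𝓘(ℂ, Fin n → ℂ) ω B] {ι : Type v} (Y : HomogeneousBundle n B g q ι)
    {b : Fin q → ℕ} (hb : Monotone b) {m : ℕ} (hm : 1 ≤ m) {d : ℕ → ℕ}
    (hnef : IsFibreNef b fun j => d (b j) - m * anti b j) (D : Y.Divisor b d)
    {Z : Set B} (hZ : IsCompact Z)
    (hlc : ∀ p ∈ Z, ∀ i, p ∈ Y.U i → ∃ v, IsLogCanonical b m (D.F i p v)) :
    ∃ N : ℕ, 1 ≤ N ∧ D.IsGenerated m (fun _ _ _ => 1) Z N ∧
      (∀ (μ : ι → ι → B → ℂ) (N' : ℕ), 1 ≤ N' →
        (∀ p ∈ Z, ∃ s, Y.IsSectionOf μ N' s ∧ ∀ i, p ∈ Y.U i → s i p ≠ 0) →
        D.IsGenerated m μ Z (N * N')) ∧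
      (∀ [ConnectedSpace B] (Ω : ι → B → Matrix (Fin (2 * g)) (Fin (2 * g)) ℝ),
        Y.IsPolarization Ω → ∃ N₀ : ℕ, 1 ≤ N₀ ∧ D.IsGenerated m (Y.relative m) Z (N * N₀) ∧
          ∀ N' : ℕ, 1 ≤ N' →
            (∀ p ∈ Z, ∃ σ, IsCanonicalForm n B N' σ ∧ σ (chartAt (Fin n → ℂ) p) p ≠ 0) →
            D.IsGenerated m (Y.canonical m) Z (N * (N₀ * N'))) := by
  obtain ⟨N, hN, hG⟩ := D.exists_power hb hm hnef hZ hlc
  refine ⟨N, hN, hG, fun μ N' _ hM => hG.mul_base hM, fun Ω hΩ => ?_⟩
  obtain ⟨N₀, hN₀, hs⟩ := hΩ.exists_power_compact hZ
  refine ⟨N₀, hN₀, hG.mul_base fun p hp => ?_, fun N' _ hB => hG.mul_base fun p hp => ?_⟩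
  · obtain ⟨s, hs, hne⟩ := hs p hp
    exact ⟨_, isSectionOf_relative hs m, fun i hi => pow_ne_zero _ (hne i hi)⟩
  · obtain ⟨s, hs, hne⟩ := hs p hp
    obtain ⟨σ, hσ, hneσ⟩ := hB p hp
    refine ⟨_, isSectionOf_canonical hs hσ m, fun i hi => mul_ne_zero (pow_ne_zero _ (hne i hi))
      (pow_ne_zero _ fun h0 => hneσ ?_)⟩
    rw [← hσ.eq _ (Y.mem_atlas i) _ (chart_mem_atlas _ _) p ⟨hi, mem_chart_source _ _⟩, h0, zero_mul]

end Pool.Agent.Results.MP_9a2ae6_ag.HomogeneousFibrations
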