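import Pool.Agent.H18.HK.Final

/-!
# Log abundance for pairs over families of hyperkähler manifolds

Let `f : Y → B` be a smooth family of compact Kähler manifolds with exactly one holomorphic two-form up
to constant factors, for instance K3 surfaces or compact hyperkähler manifolds, over a connected complex
manifold `B`. Let the total space `Y` be a Kähler manifold; more generally let the second cohomology of
the fibres have a real polarization. It need not be rational, and the fibres need not be algebraic. Then
the line bundle `λ = f_* Ω²_{Y/B}` on `B` is semiample over each compact subset of `B`.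

Let `X → B` be a holomorphic map from a complex manifold `X` and let `m Δ = D` be an effective divisor on
`X` such that `m (K_X + Δ)` is the inverse image of `λ ^ e ⊗ M` for a line bundle `M` on `B` which is
semiample over the compact set. Then `K_X + Δ` is semiample over the compact set. For instance, if the
fibres of `Y → B` are hyperkähler manifolds of dimension `2 e`, then `K_Y` is the inverse image of
`λ ^ e ⊗ K_B`, and `K_Y` is semiample if `B` is compact and `K_B` is semiample.

Idea of the proof. Let `S` be the real form and `κ` the real class of the polarization. For a `ℚ`-linear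
map `φ : ℝ → ℚ` which is close to the identity on the coefficients of `S`, the square root of the
quotient of `φ(S)` and `S` is a flat endomorphism. It carries the period vector `σ` to a vector which is
polarized by the rational form `φ(S)`, without changing the line bundle `λ`. So we may assume that `S` is
integral; the class `κ` is still real.

If there is an integral vector orthogonal to `κ` of positive length `m`, then the series
`∑ S(σ, v) ^ (-k)` over the integral vectors `v` orthogonal to `κ` of length `m` converge for `k > r`,
they are sections of `λ ^ k`, and for each point of `B` one of them does not vanish there. Otherwise the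
smallest rational subspace `W` with `κ ∈ W ⊗ ℝ` is so large that `W ⊗ ℝ` contains a vector `u ≠ 0`
orthogonal to `κ` with `S(u, u) ≥ 0`. The monodromy fixes `W`, hence `u`, and `S(σ, u)` has no zeros, so
`λ` is trivial.
-/

set_option autoImplicit false

universe u v w x

namespace Pool.Agent.Results.MP_9a2ae6_ag.HyperkaehlerFibrations

open H18.TF H18.HK
open scoped Manifold ContDiff

/-- Let `Y → B` be a smooth family of compact Kähler manifolds with one holomorphic two-form over the
connected complex manifold `B`, with a real polarization, and let `Z` be a compact subset of `B`. Then
there is `N ≥ 1` such that: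

(1) the power `λ ^ N` of the line bundle `λ = f_* Ω²_{Y/B}` is generated by its global sections at the
points of `Z`;

(2) if `M` is a line bundle on `B` and `M ^ N'` is generated by its global sections at the points of `Z`,
if `X → B` is a holomorphic map from a complex manifold `X` and `D` is an effective divisor on `X` such
that `K_X ^ m ⊗ O(D)` is isomorphic to the inverse image of `λ ^ e ⊗ M`, then the power `N N'` of
`K_X ^ m ⊗ O(D)` is generated by its global sections at all points over `Z`. -/
theorem result {n r : ℕ} {B : Type u} [TopologicalSpace B] [ChartedSpace (Fin n → ℂ) B]
    [IsManifold 𝓘(ℂ, Fin n → ℂ) ω B] [ConnectedSpace B] {ι : Type v}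
    (Y : PeriodFamily n B r ι) {S : ι → B → Matrix (Fin r) (Fin r) ℝ} {κ : ι → B → Fin r → ℝ}
    (hY : Y.IsPolarization S κ) {Z : Set B} (hZ : IsCompact Z) :
    ∃ N : ℕ, 1 ≤ N ∧ Y.IsGeneratedOf Y.t N Z ∧
      ∀ (μ : ι → ι → B → ℂ) (N' : ℕ), 1 ≤ N' → Y.IsGeneratedOf μ N' Z →
        ∀ {k : ℕ} {X : Type w} [TopologicalSpace X] [ChartedSpace (Fin k → ℂ) X]
          [IsManifold 𝓘(ℂ, Fin k → ℂ) ω X] {α : Type x} (h : PairMap Y k X α) (e m : ℕ)
          (τ : α → OpenPartialHomeomorph X (Fin k → ℂ) → X → ℂ),
          h.IsAdjunction (fun i j p => Y.t i j p ^ e * μ i j p) m τ →
            h.IsGenerated m (N * N') Z := by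
  obtain ⟨N, hN, h1⟩ := hY.exists_power hZ
  exact ⟨N, hN, h1, fun μ N' _ hM k X _ _ _ α h e m τ hτ => hτ.isGenerated h1 hM⟩

end Pool.Agent.Results.MP_9a2ae6_ag.HyperkaehlerFibrations
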