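import Pool.Agent.H18.GIT.Global

/-!
# Abundance for families of klt or log canonical pairs on flag varieties over any base

Let `B` be any complex manifold and let `Y → B` be any holomorphic bundle of flag varieties with the
structure group `PGL_q`, for example `Y = P(E)`, or the bundle of the partial flags of some type in
the fibres of `E`, for an arbitrary holomorphic vector bundle `E`. Let `m Δ` be an effective divisor
on `Y`, such that all fibres `(Y_p, Δ_p)` are klt (or only log canonical), and such that `K_Y + Δ` is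
nef on the fibres. (Then the pair `(Y, Δ)` is klt, or log canonical.) We prove:

(1) a multiple `N m (K_{Y/B} + Δ)` of the relative log canonical bundle is globally generated, where
`N` depends only on the flag type, on `m` and on the degrees of `Δ` on the fibres;

(2) if `K_B` is semiample, then `K_Y + Δ` is semiample.
-/

set_option autoImplicit false

universe u v

namespace Pool.Agent.Results.MP_9a2ae6_ag.LogCanonicalFlagFamilies

open MvPolynomial Q47.FL H18.GIT
open scoped Manifold ContDiff

/-- Let `b` be a type of flags in `ℂ^q`, let `m ≥ 1`, and let `d` be a weight, such that the line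
bundle `O(d - m anti)` on the flag variety is nef. There is `N ≥ 1`, which depends only on `b`, `m`
and `d`, with the following property. Let `Y` be a bundle of flag varieties over a complex manifold
`B`, and let `F`, `e` define an effective divisor `m Δ` on `Y`, which has the weight `d` on the fibres
and such that all fibres of `(Y, Δ)` over `B` are log canonical. Then:

(1) for each point `(p, g)` of `Y` there is a section of `O_Y(N m (K_{Y/B} + Δ))` which does not
vanish at this point;

(2) if `N' ≥ 1` and the line bundle `K_B ^ N'` is globally generated, then for each point `(p, g)` of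
`Y` there is a section of `O_Y(N N' m (K_Y + Δ))` which does not vanish at this point. -/
theorem result {q : ℕ} {b : Fin q → ℕ} (hb : Monotone b) {m : ℕ} (hm : 1 ≤ m) {d : ℕ → ℕ}
    (hnef : IsFibreNef b fun j => d (b j) - m * anti b j) :
    ∃ N : ℕ, 1 ≤ N ∧ ∀ (n : ℕ) (B : Type u) [TopologicalSpace B] [ChartedSpace (Fin n → ℂ) B]
      [IsManifold 𝓘(ℂ, Fin n → ℂ) ω B] (ι : Type v) (Y : FlagBundle n B q ι)
      (F : ι → B → MvPolynomial (Fin q × Fin q) ℂ) (e : ι → ι → B → ℂ), Y.IsDivisor b d F e →
      (∀ i, ∀ p ∈ Y.U i, IsLogCanonical b m (F i p)) →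
      (∀ i, ∀ p ∈ Y.U i, ∀ g : Matrix (Fin q) (Fin q) ℂ, g.det ≠ 0 →
        ∃ G, Y.IsRelativeSection b m d e N G ∧ ev g (G i p) ≠ 0) ∧
      ∀ N' : ℕ, 1 ≤ N' →
        (∀ i, ∀ p ∈ Y.U i, ∃ s, Y.IsPluricanonicalForm N' s ∧ s i p ≠ 0) →
        ∀ i, ∀ p ∈ Y.U i, ∀ g : Matrix (Fin q) (Fin q) ℂ, g.det ≠ 0 →
          ∃ G, Y.IsLogPluricanonicalSection b m d e (N * N') G ∧ ev g (G i p) ≠ 0 := by
  obtain ⟨N, hN, hN2⟩ := relative.{u, v} hb hm hnef
  refine ⟨N, hN, fun n B _ _ _ ι Y F e hF hlc => ?_⟩
  have h1 : ∀ i, ∀ p ∈ Y.U i, ∀ g : Matrix (Fin q) (Fin q) ℂ, g.det ≠ 0 →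
      ∃ G, Y.IsRelativeSection b m d e N G ∧ ev g (G i p) ≠ 0 := fun i p hp g hg =>
    hN2 n B ι Y F e hF i p hp (hlc i p hp) g hg
  refine ⟨h1, fun N' _ hs i p hp g hg => ?_⟩
  obtain ⟨G, hG, hne⟩ := h1 i p hp g hg
  obtain ⟨s, hs, hsp⟩ := hs i p hp
  refine ⟨_, absolute Y hs hG, ?_⟩
  simp only [ev, map_mul, map_pow, eval_C] at hne ⊢
  exact mul_ne_zero (pow_ne_zero _ hsp) (pow_ne_zero _ hne)

end Pool.Agent.Results.MP_9a2ae6_ag.LogCanonicalFlagFamilies
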