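import Pool.Agent.H18.TB.SimpFam

/-!
# Abundance for families of klt or log canonical pairs on toric varieties over any base

Let `B` be any complex manifold and let `Y → B` be any toric bundle: a holomorphic fibre bundle whose
fibre is a complete `ℚ`-factorial toric variety (smooth, or for example a weighted projective space) and
whose structure group is its torus. Let `m Δ` be an effective divisor on `Y` (which need not be
invariant under the torus), such that all fibres `(Y_p, Δ_p)` are klt (or only log canonical), and such
that `K_Y + Δ` is nef on the fibres. We prove: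

(1) a multiple `N m (K_{Y/B} + Δ)` of the relative log canonical divisor is Cartier and globally
generated, where `N` depends only on the fan, on `m` and on the class of `Δ` on the fibres;

(2) if `K_B` is semiample, then `K_Y + Δ` is semiample.

The points of the toric variety of a complete simplicial fan are given by the Cox coordinates `x_i`,
up to the group `G` of all `s ∈ (ℂ^*)^κ` with `∏ s_i ^ (w_i)_k = 1` for all `k`. As the generators
`w_i` of the rays are primitive, the quotient by `G` is étale in codimension one, so that log canonical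
pairs can be recognized in the Cox coordinates.
-/

set_option autoImplicit false

universe u v

namespace Pool.Agent.Results.MP_9a2ae6_ag.ToricBundleFamilies

open MvPolynomial Q47.TB H18.TB H18.GIT
open scoped Manifold ContDiff

/-- Let the vectors `w a`, `a ∈ κ`, be the primitive generators of the rays and `S` the cones of a
complete simplicial fan in `ℤ^r`, let `m ≥ 1`, and let `d` be a class such that the divisor class
`d - m (1, ..., 1)` on the toric variety is nef. There is `N ≥ 1`, which depends only on the fan, `m`
and `d`, with the following property. Let `Y` be a toric bundle over a complex manifold `B`, and let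
`F`, `e` define an effective divisor `m Δ` on `Y`, which has the class `d` on the fibres and such that
all fibres of `(Y, Δ)` over `B` are log canonical. Then:

(1) for each point `(p, x)` of `Y` there is a section of `O_Y(N m (K_{Y/B} + Δ))` which does not
vanish at this point;

(2) if `N' ≥ 1` and the line bundle `K_B ^ N'` is globally generated, then for each point `(p, x)` of
`Y` there is a section of `O_Y(N N' m (K_Y + Δ))` which does not vanish at this point. -/
theorem result {κ : Type*} [Fintype κ] {r : ℕ} {w : κ → Fin r → ℤ} {S : Set (Set κ)}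
    (hS : IsSimplicialFan w S) {m : ℕ} (hm : 1 ≤ m) {d : κ → ℤ}
    (hnef : IsFibreQNef w S fun a => d a - m) :
    ∃ N : ℕ, 1 ≤ N ∧ ∀ (n : ℕ) (B : Type u) [TopologicalSpace B] [ChartedSpace (Fin n → ℂ) B]
      [IsManifold 𝓘(ℂ, Fin n → ℂ) ω B] (ι : Type v) (Y : ToricBundle n B w ι)
      (F : ι → B → MvPolynomial κ ℂ) (e : ι → ι → B → ℂ), Y.IsDivisor d F e →
      (∀ i, ∀ p ∈ Y.U i, IsLogCanonical S m (F i p)) →
      (∀ i, ∀ p ∈ Y.U i, ∀ x : κ → ℂ, {a | x a = 0} ∈ S →
        ∃ G, Y.IsRelativeSection m d e N G ∧ eval x (G i p) ≠ 0) ∧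
      ∀ N' : ℕ, 1 ≤ N' →
        (∀ i, ∀ p ∈ Y.U i, ∃ s, Y.IsPluricanonicalForm N' s ∧ s i p ≠ 0) →
        ∀ i, ∀ p ∈ Y.U i, ∀ x : κ → ℂ, {a | x a = 0} ∈ S →
          ∃ G, Y.IsLogPluricanonicalSection m d e (N * N') G ∧ eval x (G i p) ≠ 0 := by
  obtain ⟨N, hN, hN2⟩ := hS.relative (w := w) hm hnef
  refine ⟨N, hN, fun n B _ _ _ ι Y F e hF hlc => ?_⟩
  have h1 : ∀ i, ∀ p ∈ Y.U i, ∀ x : κ → ℂ, {a | x a = 0} ∈ S →
      ∃ G, Y.IsRelativeSection m d e N G ∧ eval x (G i p) ≠ 0 := fun i p hp x hx =>
    hN2 n B ι Y F e hF i p hp (hlc i p hp) x hx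
  refine ⟨h1, fun N' _ hs i p hp x hx => ?_⟩
  obtain ⟨G, hG, hne⟩ := h1 i p hp x hx
  obtain ⟨s, hs, hsp⟩ := hs i p hp
  refine ⟨_, absolute Y hs hG, ?_⟩
  simp only [map_mul, map_pow, eval_C]
  exact mul_ne_zero (pow_ne_zero _ hsp) (pow_ne_zero _ hne)

end Pool.Agent.Results.MP_9a2ae6_ag.ToricBundleFamilies
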